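import Pool.Agent.Run7.h536.CE17

set_option autoImplicit false

/-!
# Primes `n² + c` with `n` in ALL residue classes modulo almost all large moduli, with restricted digits and ALL weights

The asymptotic formula of the problem is shown for `n² + c`, almost all `c`, where `n` runs through very sparse sets, and
it is shown in ALL residue classes modulo almost all moduli `q`, also for systems of polynomials.

Let `q` run through an ARBITRARY set `A` of moduli up to `Q` of relative density at least `k ^ (- C)`, let `S` be the set of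
the integers `m < b ^ k` whose digits in base `b` satisfy arbitrary restrictions (the `i`-th digit belongs to a set
`D i` with at least two elements; `S` may have only `2 ^ k` elements), and consider the integers `n = q m + ρ`, `m ∈ S`.
Here `Q` and `b ^ k` are of polynomially comparable size, so that the modulus may be as large as `N ^ (1 - ε)` and the number
of the `n` as small as `N ^ ε`, where `N = Q b ^ k` is the size of the `n`. For almost all `q ∈ A`, for ALL classes and
starting points `ρ`, ALL systems of polynomials `F_1, ..., F_s` of degrees `d_1, ..., d_s ≥ 2` with given leading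
coefficients (all other coefficients arbitrary), and ALL weights `w(m)` (for example the indicator function of the
primes among the `n`, or of any other set), for almost all vectors `c` of constant terms and all `M`, the sum of
`w(m) ∏ Λ(|F_l(n) + c_l|)` over the `m ∈ S`, `m < M`, is what the sieve model of the von Mangoldt function predicts. The
class, the polynomials and the weights may depend on `q` in an arbitrary way.

Proof. As polynomials in `m` the `F_l(q m + ρ)` have the leading coefficients `κ_l q ^ (d_l)` and arbitrary other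
coefficients. The values have nearly minimal additive energy (`Run7.h536.CE1` to `CE4`: a Weyl inequality for
digit-restricted integers in terms of the leading coefficient only, and moments over `q`); the circle method for
correlations of primes along families of nearly minimal energy (starting files, `TH872.Sq`, `R459.fam_near_fin`) and a maximal
choice of the bad data, weights included (`CE5`, `CE6`, `CE17`), give the result.
-/

namespace Pool.Agent.Results.MP_484c84_nt.AllClassesDigitsWeights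

open Finset Polynomial

/-- The integers `m < b ^ k` whose `i`-th digit in base `b` belongs to `D i`, for all `i < k`. -/
def restricted (b : ℕ) (D : ℕ → Finset ℕ) (k : ℕ) : Finset ℕ :=
  (range (b ^ k)).filter (fun t : ℕ => ∀ i < k, t / b ^ i % b ∈ D i)

/-- The sieve model of the von Mangoldt function: `∏_{p ≤ z} (1 - 1/p)⁻¹` at the integers without prime factors `p ≤ z`,
and `0` for the others. -/
noncomputable def model (z : ℕ) (x : ℤ) : ℝ :=
  if ∀ p ∈ (Icc 1 z).filter Nat.Prime, ¬ (p : ℤ) ∣ x then (∏ p ∈ (Icc 1 z).filter Nat.Prime, (1 - 1 / (p : ℝ)))⁻¹ else 0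

/-- Functions between `log` on the primes and the von Mangoldt function. -/
def PrimeLike (L : ℕ → ℝ) : Prop :=
  ∀ n, (if n.Prime then Real.log n else 0) ≤ L n ∧ L n ≤ ArithmeticFunction.vonMangoldt n

open Classical in
/-- The number of the integer vectors `c`, `|c_l| ≤ K_l`, such that for some `M` the sum of
`w(m) (∏ L(|F_l(n) + c_l|) - ∏ model_z(F_l(n) + c_l))`, `n = q m + ρ`, over the `m ∈ S` with `m < M` exceeds `δ` in absolute
value. -/
noncomputable def exceptions {s : ℕ} (K : Fin s → ℕ) (z : ℕ) (S : Finset ℕ) (L : ℕ → ℝ) (δ : ℝ) (q : ℕ) (ρ : ℤ)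
    (F : Fin s → ℤ[X]) (w : ℕ → ℝ) : ℕ :=
  ((Fintype.piFinset (fun l => Icc (-(K l : ℤ)) (K l))).filter (fun c : Fin s → ℤ => ∃ M : ℕ,
    δ < |∑ m ∈ S.filter (fun m => m < M), w m * (∏ l, L ((F l).eval (q * (m : ℤ) + ρ) + c l).natAbs -
      ∏ l, model z ((F l).eval (q * (m : ℤ) + ρ) + c l))|)).card

open Classical in
/-- Fix the base `b ≥ 2`, `s` degrees `d_l ≥ 2`, and `r`, `B`, `C`, `T`, `U`. There is `B₀` such that for all `E` and all
large `k`: let `Q ≤ b ^ (r k)`, `b ^ k ≤ Q ^ r`, let `A` be ANY set of at least `Q / k ^ C` positive integers up to `Q`, let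
`D i`, `i < k`, be ARBITRARY sets of at least two digits, `S` the set of the `m < b ^ k` with the `i`-th digit in `D i`,
`κ_l ≠ 0`, `z` an integer between `k ^ B₀` and `k ^ E`, and `L` a function between `log` on the primes and the von Mangoldt
function. Then for all but at most `|A| / k ^ U` of the `q ∈ A`: for ALL polynomials `F_l` with integer coefficients, of
degree at most `d_l` and with the coefficient `κ_l` at `x ^ (d_l)`, and ALL integers `ρ` with
`|F_l(q m + ρ)| ≤ B (Q b ^ k) ^ (d_l)` for `m ∈ S`, and ALL weights `w` with `|w| ≤ k ^ T`, for all but at most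
`∏ (Q b ^ k) ^ (d_l) / k ^ U` of the vectors `c` of integers with `|c_l| ≤ B (Q b ^ k) ^ (d_l)`: for ALL `M` the sum of
`w(m) (∏ L(|F_l(n) + c_l|) - ∏ model_z(F_l(n) + c_l))`, `n = q m + ρ`, over the `m ∈ S` with `m < M` is at most
`|S| / k ^ U` in absolute value. -/
theorem result (b : ℕ) (hb : 2 ≤ b) (s : ℕ) (d : Fin s → ℕ) (hd : ∀ l, 2 ≤ d l) (r B C T U : ℕ) (hr : 1 ≤ r) (hB : 1 ≤ B) :
    ∃ B₀ : ℕ, ∀ E : ℕ, ∃ k₀ : ℕ, ∀ k : ℕ, k₀ ≤ k → ∀ Q : ℕ, Q ≤ (b ^ k) ^ r → b ^ k ≤ Q ^ r →
    ∀ A : Finset ℕ, A ⊆ Icc 1 Q → (Q : ℝ) ≤ (k : ℝ) ^ C * A.card →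
    ∀ D : ℕ → Finset ℕ, (∀ i < k, D i ⊆ range b ∧ 2 ≤ (D i).card) → ∀ κ : Fin s → ℤ, (∀ l, κ l ≠ 0) →
    ∀ z : ℕ, (k : ℝ) ^ B₀ ≤ z → (z : ℝ) ≤ (k : ℝ) ^ E → ∀ L : ℕ → ℝ, PrimeLike L →
    ((A.filter (fun q : ℕ => ∃ F : Fin s → ℤ[X], ∃ ρ : ℤ, ∃ w : ℕ → ℝ, (∀ m, |w m| ≤ (k : ℝ) ^ T) ∧
      (∀ l, (F l).natDegree ≤ d l) ∧ (∀ l, (F l).coeff (d l) = κ l) ∧
      (∀ l, ∀ m ∈ restricted b D k, |(F l).eval (q * (m : ℤ) + ρ)| ≤ B * (((Q * b ^ k) ^ d l : ℕ) : ℤ)) ∧
      (∏ l, (((Q * b ^ k) ^ d l : ℕ) : ℝ)) / (k : ℝ) ^ U <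
        exceptions (fun l => B * (Q * b ^ k) ^ d l) z (restricted b D k) L ((restricted b D k).card / (k : ℝ) ^ U)
          q ρ F w)).card : ℝ) ≤
      A.card / (k : ℝ) ^ U := by
  obtain ⟨B0, h0⟩ := Pool.Agent.Run7.h536.CE.ap_D b hb s ∅ (fun _ _ => 0) (fun l hl => absurd hl (notMem_empty l))
    d hd r B C T U hr hB
  refine ⟨B0 + 1, fun E => ?_⟩
  obtain ⟨k0, h1⟩ := h0 E
  refine ⟨k0 + 2, fun k hk Q hQ1 hQ2 A hA hAQ D hD κ hκ z hz1 hz2 L hL => ?_⟩
  have hk1 : (1 : ℝ) ≤ k := by exact_mod_cast (by omega : 1 ≤ k)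
  have hk2 : (2 : ℝ) ≤ k := by exact_mod_cast (by omega : 2 ≤ k)
  have hz2' : 2 ≤ z := by
    have h3 : (2 : ℝ) ≤ z := by
      refine le_trans ?_ hz1
      calc (2 : ℝ) ≤ k := hk2
        _ = (k : ℝ) ^ 1 := (pow_one _).symm
        _ ≤ _ := pow_le_pow_right₀ hk1 (by omega)
    exact_mod_cast h3
  have hmod : ∀ x : ℤ, Pool.Agent.Run7.h536.RD.AM z x = model z x := fun x => Pool.Agent.Run7.h536.MT.AM_eq z hz2' x
  have hL' : ∀ n, Pool.Agent.TH872.Sq.th n ≤ L n ∧ L n ≤ ArithmeticFunction.vonMangoldt n := hL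
  have key := h1 k (by omega) Q hQ1 hQ2 A hA hAQ D hD κ hκ z (le_trans (pow_le_pow_right₀ hk1 (by omega)) hz1) hz2 L hL'
  refine le_trans (Nat.cast_le.2 (card_le_card ?_)) key
  intro q hq
  rw [mem_filter] at hq ⊢
  obtain ⟨hqA, F, ρ, w, hw, hF1, hF2, hF3, hF4⟩ := hq
  refine ⟨hqA, F, ρ, w, hw, hF1, hF2, hF3, lt_of_lt_of_le hF4 (le_of_eq ?_)⟩
  unfold exceptions
  have hI : ∀ l, ((B * (Q * b ^ k) ^ d l : ℕ) : ℤ) = (B : ℤ) * (((Q * b ^ k) ^ d l : ℕ) : ℤ) := by
    intro l
    push_cast
    ring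
  simp only [Pool.Agent.Run7.h536.RD.MA, Pool.Agent.Run7.h536.RD.MM, notMem_empty, if_false,
    Pool.Agent.Run7.h536.CE.AL_natAbs L hL', hmod, hI]
  rfl

end Pool.Agent.Results.MP_484c84_nt.AllClassesDigitsWeights
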