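import Pool.Agent.Run7.h90.AP.Fin

set_option autoImplicit false

/-!
# Values `n ^ 2 + 1` free of small primes, `n` running through tiny geometric progressions modulo a prime

Let `p` be a large prime, `N ≥ p ^ ε`, and let `n` run through the integers of an interval of length `L ≥ p ^ (1 - δ)` that are
congruent modulo `p` to one of `c, c g, ..., c g ^ (N - 1)` (all different). For `z ≤ p ^ (δ / b)` the number of these `n`
for which `n ^ 2 + 1` has no prime factor up to `z` is the expected one, `N (L / p)` times the product of the local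
densities, up to the factor `1 ± 2 ^ (-b)`; the same holds for every polynomial without fixed prime divisor.

Proof: the exponential sums over the progression are smaller by a power of `p` than `N` (the theorem of Bourgain, Glibichuk
and Konyagin, proved in `Agent/Run7/h90/BGK`), so the integers are equidistributed in the residue classes modulo `q ≤ p ^ δ`
inside the interval; then the fundamental lemma of the sieve is applied to them (`Agent/Run7/h90/AP`).
-/

namespace Pool.Agent.Results.MP_484c84_nt.MultiplicativeProgressions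

open Finset Filter Topology
open scoped Classical

/-- The integers `M < n ≤ M + L` that are congruent modulo `p` to one of `c, c g, ..., c g ^ (N - 1)`. -/
noncomputable def members (p : ℕ) (c g : ZMod p) (N M L : ℕ) : Finset ℕ :=
  (Ioc M (M + L)).filter fun n : ℕ => ∃ x < N, (n : ZMod p) = c * g ^ x

/-- The number of the `n ∈ A` for which `F n` has no prime factor `l ≤ z`. -/
noncomputable def sifted (F : Polynomial ℤ) (z : ℕ) (A : Finset ℕ) : ℕ :=
  (A.filter fun n : ℕ => ∀ l : ℕ, l.Prime → l ≤ z → ¬ (l : ℤ) ∣ F.eval (n : ℤ)).card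

/-- The number of the residue classes modulo `l` in which `F` is divisible by `l`. -/
noncomputable def roots (F : Polynomial ℤ) (l : ℕ) : ℕ :=
  ((range l).filter fun n : ℕ => (l : ℤ) ∣ F.eval (n : ℤ)).card

/-- The product of the local densities `1 - roots / l` over the primes `l ≤ z`. -/
noncomputable def density (F : Polynomial ℤ) (z : ℕ) : ℝ :=
  ∏ l ∈ (range (z + 1)).filter Nat.Prime, (1 - (roots F l : ℝ) / l)

/-- The partial products of the constant `c₁` of the problem. -/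
noncomputable def partialConstant (x : ℕ) : ℝ :=
  1 / 2 * ∏ p ∈ (range (x + 1)).filter (fun p => p.Prime ∧ Odd p),
    (1 - (((ZMod.χ₄ (p : ZMod 4) : ℤ) : ℝ)) / ((p : ℝ) - 1))

/-- The standing assumptions: `c g ^ x`, `x < N`, are `N ≥ p ^ ε` different residues, and `p ^ (1 - δ) ≤ L ≤ p`. -/
def Setting (ε δ : ℝ) (p : ℕ) (c g : ZMod p) (N L : ℕ) : Prop :=
  c ≠ 0 ∧ g ≠ 0 ∧ (p : ℝ) ^ ε ≤ N ∧ N ≤ orderOf g ∧ (p : ℝ) ^ (1 - δ) ≤ L ∧ L ≤ p

theorem density_eq (F : Polynomial ℤ) (z : ℕ) :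
    density F z = Pool.Agent.Run7.h90.AP.V F z := by
  unfold density Pool.Agent.Run7.h90.AP.V
  refine prod_congr rfl fun l _ => ?_
  have h : roots F l = Run7.h870.LI.rr (Pool.Agent.Run7.h90.AP.QF F) l := by
    unfold roots Run7.h870.LI.rr
    congr 1
    ext n
    rw [mem_filter, mem_filter]
    exact Iff.rfl
  rw [h]

theorem sifted_eq (F : Polynomial ℤ) (z : ℕ) (p : ℕ) (c g : ZMod p) (N M L : ℕ) :
    sifted F z (members p c g N M L) =
      Pool.Agent.Run7.h90.AP.sft F z (Pool.Agent.Run7.h90.AP.orb p c g N M L) := by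
  unfold sifted Pool.Agent.Run7.h90.AP.sft
  congr 1

theorem result :
    (∀ F : Polynomial ℤ, (∀ l : ℕ, l.Prime → ∃ n : ℤ, ¬ (l : ℤ) ∣ F.eval n) → ∀ ε : ℝ, 0 < ε →
      ∃ δ : ℝ, 0 < δ ∧ ∀ b : ℕ, 1 ≤ b → ∃ P₀ : ℝ, ∀ p : ℕ, p.Prime → P₀ ≤ p →
      ∀ (c g : ZMod p) (N L : ℕ), Setting ε δ p c g N L → ∀ M z : ℕ, 1 ≤ z →
      (z : ℝ) ≤ (p : ℝ) ^ (δ / b) →
      |(sifted F z (members p c g N M L) : ℝ) - N * ((L : ℝ) / p) * density F z| ≤
        (1 / 2) ^ b * (N * ((L : ℝ) / p) * density F z)) ∧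
    (∃ c₁ : ℝ, 0 < c₁ ∧ Tendsto partialConstant atTop (𝓝 c₁) ∧ ∀ ε : ℝ, 0 < ε →
      (∃ δ : ℝ, 0 < δ ∧ ∀ b : ℕ, 1 ≤ b → ∃ z₀ : ℕ, ∀ p : ℕ, p.Prime →
        ∀ (c g : ZMod p) (N L : ℕ), Setting ε δ p c g N L → ∀ M z : ℕ, z₀ ≤ z →
        (z : ℝ) ≤ (p : ℝ) ^ (δ / b) →
        |(sifted (Polynomial.X ^ 2 + 1) z (members p c g N M L) : ℝ) -
          2 * c₁ * Real.exp (-Real.eulerMascheroniConstant) * (N * ((L : ℝ) / p) / Real.log z)| ≤
        (1 / 2) ^ b *
          (2 * c₁ * Real.exp (-Real.eulerMascheroniConstant) * (N * ((L : ℝ) / p) / Real.log z))) ∧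
      (∃ (r : ℕ) (δ κ K : ℝ), 0 < δ ∧ 0 < κ ∧ 0 < K ∧ ∃ P₀ : ℕ, ∀ p : ℕ, p.Prime → P₀ ≤ p →
        ∀ (c g : ZMod p) (N L : ℕ), Setting ε δ p c g N L → ∀ M : ℕ, M ≤ p →
        κ * (N * ((L : ℝ) / p) / Real.log p) ≤ (((members p c g N M L).filter fun n =>
          (n ^ 2 + 1).primeFactorsList.length ≤ r ∧
          ∀ l : ℕ, l ∈ (n ^ 2 + 1).primeFactorsList → (p : ℝ) ^ δ ≤ l).card : ℝ) ∧
        (((members p c g N M L).filter fun n => (n ^ 2 + 1).Prime).card : ℝ) ≤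
          K * (N * ((L : ℝ) / p) / Real.log p))) := by
  constructor
  · intro F hF ε hε
    obtain ⟨δ, hδ, h⟩ := Pool.Agent.Run7.h90.AP.geom' F hF ε hε
    refine ⟨δ, hδ, fun b hb => ?_⟩
    obtain ⟨P₀, h⟩ := h b hb
    refine ⟨P₀, ?_⟩
    intro p hpp hp c g N L hS M z hz1 hz2
    rw [density_eq, sifted_eq]
    exact h p hpp hp c g hS.1 hS.2.1 N hS.2.2.1 hS.2.2.2.1 M L z hS.2.2.2.2.1 hS.2.2.2.2.2 hz1 hz2
  · obtain ⟨C, hC, h1, h2⟩ := Pool.Agent.Run7.h90.AP.V_lim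
    have hc₀ : 0 < C * Real.exp (-Real.eulerMascheroniConstant) := mul_pos hC (Real.exp_pos _)
    have e : ∀ x : ℝ, 2 * (C / 2) * Real.exp (-Real.eulerMascheroniConstant) * x =
        C * Real.exp (-Real.eulerMascheroniConstant) * x := fun x => by ring
    have hF1 : (Polynomial.X ^ 2 + 1 : Polynomial ℤ) = Pool.Agent.Run7.h90.AP.F1 := by
      unfold Pool.Agent.Run7.h90.AP.F1
      rw [Polynomial.C_1]
    refine ⟨C / 2, by positivity, ?_, fun ε hε => ⟨?_, ?_⟩⟩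
    · have h3 := h1.const_mul (1 / 2)
      rw [show (1 / 2 : ℝ) * C = C / 2 by ring] at h3
      exact h3
    · obtain ⟨δ, hδ, -, -, h⟩ := Pool.Agent.Run7.h90.AP.quad _ hc₀ h2 ε hε
      refine ⟨δ, hδ, fun b hb => ?_⟩
      obtain ⟨z₀, h⟩ := h b hb
      refine ⟨z₀, ?_⟩
      intro p hpp c g N L hS M z hz1 hz2
      rw [e, hF1, sifted_eq]
      exact h p hpp c g hS.1 hS.2.1 N hS.2.2.1 hS.2.2.2.1 M L z hS.2.2.2.2.1 hS.2.2.2.2.2 hz1 hz2
    · obtain ⟨r, δ, κ, K, hδ, hκ, hK, P₀, h⟩ := Pool.Agent.Run7.h90.AP.orders _ hc₀ h2 ε hε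
      refine ⟨r, δ, κ, K, hδ, hκ, hK, P₀, ?_⟩
      intro p hpp hp c g N L hS M hM
      exact h p hpp hp c g hS.1 hS.2.1 N hS.2.2.1 hS.2.2.2.1 M L hM hS.2.2.2.2.1 hS.2.2.2.2.2

end Pool.Agent.Results.MP_484c84_nt.MultiplicativeProgressions
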