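import Mathlib
import Pool.Agent.Run7.h757.GP.GII
import Pool.Agent.Run7.h349.GP.GfmAll
import Pool.Agent.Run7.h328.GP.D
import Pool.Agent.Run7.h136.BP.UP

/-!
# Primes `n² + l²` for a positive proportion of the `l ≤ L`, `L ≥ N^(1/2+ε)`

For every `η > 0` there is a `c > 0`, depending only on `η`, such that for all `N^(1/2+ε) ≤ L ≤ N^(1-ε)` (`N` large in terms
of `ε` and `η`) at least `c L` of the integers `1 ≤ l ≤ L` satisfy
`#{n ≤ N : n² + l² prime} ≥ (1 - η) (1/2) h_l ∫_2^N dt / log t`, with the constant `h_l` of the formula of Hardy and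
Littlewood (the partial products converge to `h_l`).

Proof. First moment: `∑_{l ≤ L} (∑_{m ≤ N} Λ(l² + m²) - N 𝔖(l)) ≪ L N / (log N)^A` by Vaughan's identity in `ℤ[i]` with the
parameters `(N/L)² N^(3ε)` and `(N/L) N^(3ε)`; the linear sums have level `L N^(1-ε)` (large sieve for the roots of
`ν² ≡ -1`), and in the bilinear sums the region is cut into narrow annuli and averaged over small rotations, so that by the
inequality of Cauchy and Schwarz on the circle the Moebius function of `ℤ[i]` in almost all sectors of width `(L/N) (log N)^(-A)`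
and the mean value theorem for the second factor in sectors of width `(L/N) (log N)^A` suffice; the boundary of the region is
treated by counting divisors in strips. An upper bound sieve, uniform in `l`, and the second moment of
`∏_{p ∣ l} (1 + 1/(p-2))` show that the first moment cannot be carried by few `l`.

Authors of the parts: helper757 (STR, GII), helper349 (GFM), helper328 (GPOS), helper136 (the upper bound sieve), on top of
the library `N782/GN` of the starting files.
-/

set_option autoImplicit false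

namespace Pool.Agent.Results.MP_484c84_nt.PositiveProportionSquares

open Finset Filter Topology

/-- the number of `1 ≤ n ≤ N` for which `n² + l²` is a prime; for `l = 1` this is `P_1(N)` -/
def P (l N : ℕ) : ℕ := #((Icc 1 N).filter (fun n : ℕ => Nat.Prime (n ^ 2 + l ^ 2)))

/-- the product of `1 - (-l² | w) / (w - 1)` over the odd primes `w ≤ X` -/
noncomputable def hprod (l X : ℕ) : ℝ :=
  ∏ w ∈ (range (X + 1)).filter (fun w => Nat.Prime w ∧ w ≠ 2), (1 - (jacobiSym (-((l : ℤ) ^ 2)) w : ℝ) / ((w : ℝ) - 1))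

/-- `P l N` is at least `1 - η` times the number predicted by Hardy and Littlewood -/
def Good (η : ℝ) (N l : ℕ) : Prop :=
  ∃ h : ℝ, 0 < h ∧ Tendsto (fun X : ℕ => hprod l X) atTop (𝓝 h) ∧
    (1 - η) * (1 / 2 * h * ∫ t in (2 : ℝ)..(N : ℝ), 1 / Real.log t) ≤ P l N

open Classical in
theorem result : ∀ η : ℝ, 0 < η → ∃ c : ℝ, 0 < c ∧ ∀ ε : ℝ, 0 < ε → ∃ N₀ : ℕ, ∀ N : ℕ, N₀ ≤ N →
    ∀ L : ℕ, (N : ℝ) ^ (1 / 2 + ε) ≤ L → (L : ℝ) ≤ (N : ℝ) ^ (1 - ε) →
      c * L ≤ #((Icc 1 L).filter (fun l : ℕ => Good η N l)) := by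
  intro η hη
  obtain ⟨c, hc, h⟩ := Run7.h328.GP.gpos Pool.Agent.N782.GN.c_ssl Run7.h136.BP.up
    (Run7.h349.GP.gfm Run7.h757.GP.gii) η hη
  refine ⟨c, hc, fun ε hε => ?_⟩
  obtain ⟨N₀, h0⟩ := h ε hε
  refine ⟨N₀, fun N hN L hL1 hL2 => ?_⟩
  refine (h0 N hN L hL1 hL2).trans ?_
  rw [Nat.cast_le]
  refine card_le_card (fun l hl => ?_)
  rw [mem_filter] at hl ⊢
  refine ⟨hl.1, ?_⟩
  obtain ⟨-, t, ht0, ht1, ht2⟩ := hl
  have e : Run7.h757.BP.P ((l : ℤ) ^ 2) N = P l N := by
    unfold Run7.h757.BP.P P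
    congr 1
  refine ⟨t, ht0, ht1, ht2.trans (le_of_eq ?_)⟩
  rw [e]

end Pool.Agent.Results.MP_484c84_nt.PositiveProportionSquares
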