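import Pool.Agent.Run7.h870.LI.Five

set_option autoImplicit false

/-!
# Almost primes `n ^ 2 + 1` in almost all intervals of length `ψ(X) log X`

The proportion of the `n ≤ X` for which `n ^ 2 + 1` has no prime factor below `X ^ z` is about
`1 / log X`; so intervals of length `ψ(X) log X` with `ψ(X) → ∞` are the shortest ones of which almost all
can contain such numbers `n`. The weights of the weighted linear sieve are supported on the divisors
composed of primes `≥ X ^ ε₁`; their sums over the intervals are compared, in mean square over the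
position of the interval, with the mean value. The pair correlations of the weights are evaluated by
the fundamental lemma of the sieve for the pairs `n ^ 2 + 1`, `(n + h) ^ 2 + 1`, and the densities of
these pairs are the square of the density of a single value on average over `h`.
-/

namespace Pool.Agent.Results.MP_484c84_nt.VeryShortIntervals

open Finset

open Classical in
/-- The number of the integers `n` in `(N, N + H]` such that `n ^ 2 + 1` has at most five prime factors,
counted with multiplicity, all of them at least `w`. -/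
noncomputable def almostPrimeCount (w : ℝ) (N H : ℕ) : ℕ :=
  ((Ioc N (N + H)).filter (fun n : ℕ => (n ^ 2 + 1).primeFactorsList.length ≤ 5 ∧
    ∀ p : ℕ, p.Prime → p ∣ n ^ 2 + 1 → w ≤ p)).card

open Classical in
/-- **Almost primes `n ^ 2 + 1` in almost all very short intervals.** Let `z < 1 / 5`. There is `δ > 0`
with the following property. For every `ε > 0` there are `K` and `X₀` such that, for all `X ≥ X₀` and
all `H` with `K log X ≤ H ≤ X`, all but at most `ε X` of the intervals `(N, N + H]`, `1 ≤ N ≤ X`, contain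
at least `δ H / log X` integers `n` for which `n ^ 2 + 1` has at most five prime factors, counted with
multiplicity, all of them at least `X ^ z`. -/
theorem result (z : ℝ) (hz : z < 1 / 5) : ∃ δ : ℝ, 0 < δ ∧ ∀ ε : ℝ, 0 < ε →
    ∃ (K : ℝ) (X₀ : ℕ), ∀ X H : ℕ, X₀ ≤ X → K * Real.log X ≤ H → H ≤ X →
      (((Icc 1 X).filter (fun N : ℕ =>
        (almostPrimeCount ((X : ℝ) ^ z) N H : ℝ) < δ * (H / Real.log X))).card : ℝ) ≤ ε * X := by
  obtain ⟨δ, hδ, h⟩ := Run7.h870.LI.five 1
    (by rintro ⟨r, hr⟩; nlinarith [mul_self_nonneg r]) z hz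
  refine ⟨δ, hδ, fun ε hε => ?_⟩
  obtain ⟨K, -, X₀, hX⟩ := h ε hε
  refine ⟨K, X₀, fun X H h1 h2 h3 => ?_⟩
  refine le_trans ?_ (hX X h1 H h2 h3)
  have e : ∀ N : ℕ, almostPrimeCount ((X : ℝ) ^ z) N H =
      (Pool.Agent.Y882.SI.gset 1 5 ((X : ℝ) ^ z) N H).card := by
    intro N
    unfold almostPrimeCount Pool.Agent.Y882.SI.gset
    congr 1
    apply filter_congr
    intro n _
    have e1 : (((n : ℕ) : ℤ) ^ 2 + 1).natAbs = n ^ 2 + 1 := by
      have : ((n : ℕ) : ℤ) ^ 2 + 1 = ((n ^ 2 + 1 : ℕ) : ℤ) := by push_cast; ring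
      rw [this, Int.natAbs_natCast]
    have e2 : ∀ p : ℕ, ((p : ℤ) ∣ (n : ℤ) ^ 2 + 1 ↔ p ∣ n ^ 2 + 1) := by
      intro p
      rw [Int.natCast_dvd, e1]
    rw [e1]
    constructor
    · rintro ⟨h4, h5⟩
      exact ⟨h4, fun p hp hd => h5 p hp ((e2 p).1 hd)⟩
    · rintro ⟨h4, h5⟩
      exact ⟨h4, fun p hp hd => h5 p hp ((e2 p).2 hd)⟩
  have h4 : ((Icc 1 X).filter (fun N : ℕ =>
        (almostPrimeCount ((X : ℝ) ^ z) N H : ℝ) < δ * (H / Real.log X))).card ≤
      ((Icc 1 X).filter (fun N => ((Pool.Agent.Y882.SI.gset 1 5 ((X : ℝ) ^ z) N H).card : ℝ) <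
        δ * H / Real.log X)).card := by
    apply card_le_card
    intro N hN
    rw [mem_filter] at hN ⊢
    refine ⟨hN.1, ?_⟩
    have h5 := hN.2
    rw [e N, ← mul_div_assoc] at h5
    exact h5
  exact_mod_cast h4

end Pool.Agent.Results.MP_484c84_nt.VeryShortIntervals
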